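import Mathlib

set_option autoImplicit false

open MeasureTheory Filter Topology Pointwise

namespace Pool.Agent.Results.MP_5d7a45_an.UniformDiscrete

/-- The `n`-th trajectory `T_n(φ, U) = U + φ(U) + ⋯ + φ^{n-1}(U)` (pointwise sums of sets). -/
def trajectory {G : Type*} [AddCommGroup G] (φ : G → G) (U : Set G) (n : ℕ) : Set G :=
  ∑ i ∈ Finset.range n, (φ^[i]) '' U

/-- `H_A(φ, U) = limsup_n log μ(T_n(φ, U)) / n`, with values in the extended reals. -/
noncomputable def entropyAt {G : Type*} [AddCommGroup G] [MeasurableSpace G] (μ : Measure G)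
    (φ : G → G) (U : Set G) : EReal :=
  limsup (fun n : ℕ => ENNReal.log (μ (trajectory φ U n)) / (n : EReal)) atTop

/-- The algebraic entropy `h_A(φ)`: the supremum of `H_A(φ, U)` over all compact
neighbourhoods `U` of `0`. -/
noncomputable def algEntropy {G : Type*} [AddCommGroup G] [TopologicalSpace G]
    [MeasurableSpace G] (μ : Measure G) (φ : G → G) : EReal :=
  ⨆ U : {U : Set G // IsCompact U ∧ U ∈ 𝓝 (0 : G)}, entropyAt μ φ U

section aux

variable {G : Type*} [AddCommGroup G]

lemma trajectory_zero (φ : G → G) (U : Set G) : trajectory φ U 0 = 0 := by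
  simp [trajectory]

lemma trajectory_succ (φ : G →+ G) (U : Set G) (n : ℕ) :
    trajectory φ U (n + 1) = U + φ '' trajectory φ U n := by
  have h : (φ '' ∑ i ∈ Finset.range n, ((φ : G → G)^[i]) '' U)
      = ∑ i ∈ Finset.range n, ((φ : G → G)^[i + 1]) '' U := by
    rw [Set.image_finsetSum]
    refine Finset.sum_congr rfl fun i _ => ?_
    rw [Function.iterate_succ', Set.image_comp]
  unfold trajectory
  rw [Finset.sum_range_succ', h]
  simp [add_comm]

lemma trajectory_mono (φ : G →+ G) {U V : Set G} (h : U ⊆ V) (n : ℕ) :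
    trajectory φ U n ⊆ trajectory φ V n := by
  induction n with
  | zero => simp [trajectory_zero]
  | succ n ih =>
    rw [trajectory_succ, trajectory_succ]
    exact Set.add_subset_add h (Set.image_mono ih)

lemma trajectory_finite (φ : G →+ G) {U : Set G} (hU : U.Finite) (n : ℕ) :
    (trajectory φ U n).Finite := by
  induction n with
  | zero => simp [trajectory_zero]
  | succ n ih =>
    rw [trajectory_succ]
    exact hU.add (ih.image _)

lemma zero_mem_trajectory (φ : G →+ G) {U : Set G} (hU : (0 : G) ∈ U) (n : ℕ) :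
    (0 : G) ∈ trajectory φ U n := by
  induction n with
  | zero => simp [trajectory_zero]
  | succ n ih =>
    rw [trajectory_succ]
    exact ⟨0, hU, 0, ⟨0, ih, by simp⟩, by simp⟩

end aux

lemma limsup_log_le {u v : ℕ → ENNReal} {a : ENNReal} (ha0 : a ≠ 0) (hat : a ≠ ⊤)
    (h : ∀ᶠ n in atTop, u n ≤ a * v n) :
    limsup (fun n : ℕ => ENNReal.log (u n) / (n : EReal)) atTop
      ≤ limsup (fun n : ℕ => ENNReal.log (v n) / (n : EReal)) atTop := by
  have hlim : Tendsto (fun n : ℕ => ENNReal.log a / (n : EReal)) atTop (𝓝 0) := by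
    rw [ENNReal.log_pos_real ha0 hat]
    have h1 : Tendsto (fun n : ℕ => Real.log a.toReal / (n : ℝ)) atTop (𝓝 0) :=
      tendsto_const_div_atTop_nhds_zero_nat _
    have h2 := (continuous_coe_real_ereal.tendsto (0 : ℝ)).comp h1
    simp only [EReal.coe_zero] at h2
    refine h2.congr fun n => ?_
    simp [EReal.coe_div]
  have h0 : limsup (fun n : ℕ => ENNReal.log a / (n : EReal)) atTop = 0 := hlim.limsup_eq
  calc limsup (fun n : ℕ => ENNReal.log (u n) / (n : EReal)) atTop
      ≤ limsup ((fun n : ℕ => ENNReal.log a / (n : EReal)) +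
          fun n : ℕ => ENNReal.log (v n) / (n : EReal)) atTop := by
        refine limsup_le_limsup ?_
        filter_upwards [h] with n hn
        have : ENNReal.log (u n) ≤ ENNReal.log a + ENNReal.log (v n) := by
          rw [← ENNReal.log_mul_add]
          exact ENNReal.log_monotone hn
        calc ENNReal.log (u n) / (n : EReal)
            ≤ (ENNReal.log a + ENNReal.log (v n)) / (n : EReal) :=
              EReal.div_le_div_right_of_nonneg (by positivity) this
          _ = _ := by
              simp only [Pi.add_apply]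
              rw [EReal.add_div_of_nonneg_right (by positivity)]
    _ ≤ limsup (fun n : ℕ => ENNReal.log a / (n : EReal)) atTop +
          limsup (fun n : ℕ => ENNReal.log (v n) / (n : EReal)) atTop := by
        apply EReal.limsup_add_le
        · left; rw [h0]; simp
        · left; rw [h0]; simp
    _ = limsup (fun n : ℕ => ENNReal.log (v n) / (n : EReal)) atTop := by
        rw [h0, zero_add]

set_option linter.unusedSectionVars false

section topological

variable {G : Type*} [AddCommGroup G] [TopologicalSpace G] [IsTopologicalAddGroup G]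

/-- A compact set is covered by finitely many `K`-translates of a set `C` whose interior
translates cover the group. -/
lemma exists_finite_cover (K : AddSubgroup G) {C : Set G}
    (hC : ∀ x : G, ∃ k ∈ K, x ∈ (fun y => k + y) '' interior C) {A : Set G} (hA : IsCompact A) :
    ∃ F : Set G, F.Finite ∧ F ⊆ K ∧ A ⊆ F + C := by
  obtain ⟨t, ht⟩ := hA.elim_finite_subcover (fun k : K => (fun y => (k : G) + y) '' interior C)
    (fun k => (isOpenMap_add_left (k : G)) _ isOpen_interior)
    (fun x _ => by
      obtain ⟨k, hk, hx⟩ := hC x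
      exact Set.mem_iUnion.2 ⟨⟨k, hk⟩, hx⟩)
  refine ⟨(fun k : K => (k : G)) '' (t : Set K), t.finite_toSet.image _, ?_, ?_⟩
  · rintro _ ⟨k, _, rfl⟩
    exact k.2
  · intro x hx
    obtain ⟨k, hk⟩ := Set.mem_iUnion.1 (ht hx)
    obtain ⟨hkt, y, hy, rfl⟩ := Set.mem_iUnion.1 hk
    exact ⟨k, ⟨k, hkt, rfl⟩, y, interior_subset hy, rfl⟩

/-- Every compact set `U` is contained in a compact set `C` with `K + interior C = G`. -/
lemma exists_compact_cover [LocallyCompactSpace G] (K : AddSubgroup G) [CompactSpace (G ⧸ K)]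
    {U : Set G} (hU : IsCompact U) :
    ∃ C : Set G, IsCompact C ∧ U ⊆ C ∧ ∀ x : G, ∃ k ∈ K, x ∈ (fun y => k + y) '' interior C := by
  obtain ⟨D, hDc, hD0⟩ := exists_compact_mem_nhds (0 : G)
  obtain ⟨t, ht⟩ := isCompact_univ.elim_finite_subcover
    (fun g : G => (QuotientAddGroup.mk : G → G ⧸ K) '' ((fun y => g + y) '' interior D))
    (fun g => (QuotientAddGroup.isOpenMap_coe) _ ((isOpenMap_add_left g) _ isOpen_interior))
    (fun q _ => by
      obtain ⟨g, rfl⟩ := QuotientAddGroup.mk_surjective q
      exact Set.mem_iUnion.2 ⟨g, g, ⟨0, mem_interior_iff_mem_nhds.2 hD0, by simp⟩, rfl⟩)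
  refine ⟨U ∪ ⋃ g ∈ t, (fun y => g + y) '' D, ?_, Set.subset_union_left, ?_⟩
  · exact hU.union (t.isCompact_biUnion fun g _ => hDc.image (continuous_const_add g))
  · intro x
    have hx := ht (Set.mem_univ (QuotientAddGroup.mk x : G ⧸ K))
    simp only [Set.mem_iUnion] at hx
    obtain ⟨g, hg, z, hz, hzx⟩ := hx
    have hk : x - z ∈ K := by
      have := QuotientAddGroup.eq.1 hzx
      simpa [sub_eq_add_neg, add_comm] using this
    refine ⟨x - z, hk, z, ?_, by simp⟩
    have hopen : IsOpen ((fun y => g + y) '' interior D) :=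
      (isOpenMap_add_left g) _ isOpen_interior
    refine interior_maximal ?_ hopen hz
    intro w hw
    refine Or.inr (Set.mem_biUnion hg ?_)
    exact Set.image_mono interior_subset hw

lemma trajectory_compact (φ : G →+ G) (hφ : Continuous φ) {U : Set G} (hU : IsCompact U)
    (n : ℕ) : IsCompact (trajectory φ U n) := by
  induction n with
  | zero => rw [trajectory_zero]; exact isCompact_singleton
  | succ n ih =>
    rw [trajectory_succ]
    exact hU.add (ih.image hφ)

/-- The key combinatorial inclusion. -/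
lemma trajectory_subset (φ : G →+ G) {C F₁ F₂ F : Set G} (h0 : (0 : G) ∈ C)
    (h1 : C + C ⊆ F₁ + C) (h2 : φ '' C ⊆ F₂ + C) (hF : F₁ + F₂ ⊆ F) (n : ℕ) :
    trajectory φ C n ⊆ C + trajectory φ F n := by
  induction n with
  | zero =>
    rw [trajectory_zero, trajectory_zero, add_zero]
    exact Set.singleton_subset_iff.2 h0
  | succ n ih =>
    rw [trajectory_succ, trajectory_succ]
    calc C + φ '' trajectory φ C n
        ⊆ C + φ '' (C + trajectory φ F n) := Set.add_subset_add_left (Set.image_mono ih)
      _ = C + (φ '' C + φ '' trajectory φ F n) := by rw [Set.image_add]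
      _ ⊆ C + ((F₂ + C) + φ '' trajectory φ F n) :=
          Set.add_subset_add_left (Set.add_subset_add_right h2)
      _ = (C + C) + (F₂ + φ '' trajectory φ F n) := by
          simp only [add_assoc, add_left_comm]
      _ ⊆ (F₁ + C) + (F₂ + φ '' trajectory φ F n) := Set.add_subset_add_right h1
      _ = C + ((F₁ + F₂) + φ '' trajectory φ F n) := by
          simp only [add_assoc, add_left_comm]
      _ ⊆ C + (F + φ '' trajectory φ F n) :=
          Set.add_subset_add_left (Set.add_subset_add_right hF)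

end topological

section measure

variable {G : Type*} [AddCommGroup G] [TopologicalSpace G] [IsTopologicalAddGroup G]
  [T2Space G] [MeasurableSpace G] [BorelSpace G]

lemma measure_add_finite_le (μ : Measure G) [μ.IsAddLeftInvariant] (C : Set G) {E : Set G}
    (hE : E.Finite) : μ (C + E) ≤ μ C * (E.ncard : ENNReal) := by
  have hset : C + E = ⋃ e ∈ hE.toFinset, (fun y => e + y) '' C := by
    ext x
    simp only [Set.mem_add, Set.mem_iUnion, Set.Finite.mem_toFinset, Set.mem_image, exists_prop]
    constructor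
    · rintro ⟨c, hc, e, he, rfl⟩
      exact ⟨e, he, c, hc, add_comm _ _⟩
    · rintro ⟨e, he, c, hc, rfl⟩
      exact ⟨c, hc, e, he, add_comm _ _⟩
  rw [hset]
  calc μ (⋃ e ∈ hE.toFinset, (fun y => e + y) '' C)
      ≤ ∑ e ∈ hE.toFinset, μ ((fun y => e + y) '' C) := measure_biUnion_finset_le _ _
    _ = ∑ e ∈ hE.toFinset, μ C := by
        refine Finset.sum_congr rfl fun e _ => ?_
        rw [Set.image_add_left, measure_preimage_add]
    _ = μ C * (E.ncard : ENNReal) := by
        rw [Finset.sum_const, nsmul_eq_mul, mul_comm, Set.ncard_eq_toFinset_card _ hE]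

lemma measure_add_finite_eq (μ : Measure G) [μ.IsAddLeftInvariant] {V : Set G}
    (hV : MeasurableSet V) {E : Set G} (hE : E.Finite)
    (hdisj : ∀ e ∈ E, ∀ e' ∈ E, e ≠ e' → Disjoint ((fun y => e + y) '' V) ((fun y => e' + y) '' V)) :
    μ (E + V) = (E.ncard : ENNReal) * μ V := by
  have hset : E + V = ⋃ e ∈ hE.toFinset, (fun y => e + y) '' V := by
    ext x
    simp only [Set.mem_add, Set.mem_iUnion, Set.Finite.mem_toFinset, Set.mem_image, exists_prop]
  rw [hset, measure_biUnion_finset]
  · calc ∑ e ∈ hE.toFinset, μ ((fun y => e + y) '' V) = ∑ e ∈ hE.toFinset, μ V := by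
          refine Finset.sum_congr rfl fun e _ => ?_
          rw [Set.image_add_left, measure_preimage_add]
      _ = _ := by
          rw [Finset.sum_const, nsmul_eq_mul, Set.ncard_eq_toFinset_card _ hE]
  · intro e he e' he' hne
    exact hdisj e (by simpa using he) e' (by simpa using he') hne
  · intro e _
    rw [Set.image_add_left]
    exact measurableSet_preimage (measurable_const_add _) hV

end measure

section main

variable {G : Type*} [AddCommGroup G] [TopologicalSpace G] [IsTopologicalAddGroup G]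
  [T2Space G] [MeasurableSpace G] [BorelSpace G]

lemma image_trajectory {K : AddSubgroup G} (φ : G →+ G) (ψ : K →+ K)
    (hψ : ∀ x : K, (ψ x : G) = φ x) (W : Set K) (n : ℕ) :
    ((↑) : K → G) '' trajectory ψ W n = trajectory φ (((↑) : K → G) '' W) n := by
  induction n with
  | zero => simp [trajectory_zero, Set.singleton_zero]
  | succ n ih =>
    rw [trajectory_succ, trajectory_succ, ← ih]
    have h1 : ((↑) : K → G) '' (W + ψ '' trajectory ψ W n)
        = ((↑) : K → G) '' W + ((↑) : K → G) '' (ψ '' trajectory ψ W n) :=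
      Set.image_add K.subtype
    rw [h1, Set.image_image, Set.image_image]
    simp only [hψ]

lemma haar_discrete {K : AddSubgroup G} [DiscreteTopology K] (ν : Measure K)
    [ν.IsAddHaarMeasure] {E : Set K} (hE : E.Finite) :
    ν E = (E.ncard : ENNReal) * ν {0} := by
  have h := measure_add_finite_eq ν (V := ({0} : Set K)) (measurableSet_singleton 0) hE
    (fun e _ e' _ hne => by
      simpa using hne)
  simpa using h

lemma entropyAt_le (μ : Measure G) [μ.IsAddHaarMeasure] [LocallyCompactSpace G] (φ : G →+ G)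
    (hφ : Continuous φ) (K : AddSubgroup G) [DiscreteTopology K] [CompactSpace (G ⧸ K)]
    (ψ : K →+ K) (hψ : ∀ x : K, (ψ x : G) = φ x) (ν : Measure K) [ν.IsAddHaarMeasure]
    {U : Set G} (hU : IsCompact U) (hU0 : U ∈ 𝓝 (0 : G)) :
    entropyAt μ φ U ≤ algEntropy ν ψ := by
  obtain ⟨C, hC, hUC, hcov⟩ := exists_compact_cover K hU
  obtain ⟨F₁, hF₁, hF₁K, h1⟩ := exists_finite_cover K hcov (hC.add hC)
  obtain ⟨F₂, hF₂, hF₂K, h2⟩ := exists_finite_cover K hcov (hC.image hφ)
  set F : Set G := (F₁ + F₂) ∪ {0} with hFdef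
  have hFfin : F.Finite := (hF₁.add hF₂).union (Set.finite_singleton _)
  have hFK : F ⊆ K := by
    rintro x (hx | hx)
    · obtain ⟨a, ha, b, hb, rfl⟩ := hx
      exact K.add_mem (hF₁K ha) (hF₂K hb)
    · rw [Set.mem_singleton_iff] at hx
      rw [hx]; exact K.zero_mem
  set W : Set K := ((↑) : K → G) ⁻¹' F with hWdef
  have hWimg : ((↑) : K → G) '' W = F := by
    rw [hWdef, Set.image_preimage_eq_inter_range]
    rw [Set.inter_eq_left]
    intro x hx
    exact ⟨⟨x, hFK hx⟩, rfl⟩
  have hWfin : W.Finite := hFfin.preimage Subtype.val_injective.injOn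
  have hW0 : W ∈ 𝓝 (0 : K) := by
    rw [nhds_discrete]
    simp [hWdef, hFdef]
  have hc0 : ν {0} ≠ 0 := by
    have : IsOpen ({0} : Set K) := isOpen_discrete _
    exact (this.measure_pos ν ⟨0, rfl⟩).ne'
  have hct : ν {0} ≠ ⊤ := (isCompact_singleton.measure_lt_top (μ := ν)).ne
  have hμC : μ C ≠ ⊤ := hC.measure_lt_top.ne
  have hμC0 : μ C ≠ 0 := (Measure.measure_pos_of_mem_nhds μ (mem_of_superset hU0 hUC)).ne'
  have key : entropyAt μ φ U ≤ entropyAt ν ψ W := by
    refine limsup_log_le (a := μ C * (ν {0})⁻¹) ?_ ?_ (Eventually.of_forall fun n => ?_)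
    · exact mul_ne_zero hμC0 (ENNReal.inv_ne_zero.2 hct)
    · exact ENNReal.mul_ne_top hμC (ENNReal.inv_ne_top.2 hc0)
    · have hcard : (trajectory φ F n).ncard = (trajectory ψ W n).ncard := by
        rw [← hWimg, ← image_trajectory φ ψ hψ W n]
        exact Set.ncard_image_of_injective _ Subtype.val_injective
      calc μ (trajectory φ U n) ≤ μ (trajectory φ C n) :=
            measure_mono (trajectory_mono φ hUC n)
        _ ≤ μ (C + trajectory φ F n) :=
            measure_mono (trajectory_subset φ (mem_of_mem_nhds (mem_of_superset hU0 hUC))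
              h1 h2 Set.subset_union_left n)
        _ ≤ μ C * ((trajectory φ F n).ncard : ENNReal) :=
            measure_add_finite_le μ C (trajectory_finite φ hFfin n)
        _ = μ C * (ν {0})⁻¹ * ν (trajectory ψ W n) := by
            rw [haar_discrete ν (trajectory_finite ψ hWfin n), hcard, mul_assoc,
              mul_comm ((trajectory ψ W n).ncard : ENNReal), ← mul_assoc (ν {0})⁻¹,
              ENNReal.inv_mul_cancel hc0 hct, one_mul]
  exact key.trans (le_iSup (fun U : {U : Set K // IsCompact U ∧ U ∈ 𝓝 (0 : K)} =>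
    entropyAt ν ψ U) ⟨W, hWfin.isCompact, hW0⟩)

lemma le_algEntropy (μ : Measure G) [μ.IsAddHaarMeasure] [LocallyCompactSpace G] (φ : G →+ G)
    (K : AddSubgroup G) [DiscreteTopology K]
    (ψ : K →+ K) (hψ : ∀ x : K, (ψ x : G) = φ x) (ν : Measure K) [ν.IsAddHaarMeasure]
    {W : Set K} (hW : IsCompact W) (hW0 : W ∈ 𝓝 (0 : K)) :
    entropyAt ν ψ W ≤ algEntropy μ φ := by
  have hWfin : W.Finite := hW.finite_of_discrete
  have h0W : (0 : K) ∈ W := mem_of_mem_nhds hW0
  -- a neighbourhood of `0` meeting `K` only in `0`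
  obtain ⟨O, hO, hOK⟩ : ∃ O ∈ 𝓝 (0 : G), ∀ x ∈ O, x ∈ K → x = 0 := by
    have h : ({0} : Set K) ∈ 𝓝 (0 : K) := by rw [nhds_discrete]; simp
    rw [nhds_subtype_eq_comap, mem_comap] at h
    obtain ⟨O, hO, hsub⟩ := h
    refine ⟨O, by simpa using hO, fun x hx hxK => ?_⟩
    have : (⟨x, hxK⟩ : K) ∈ ({0} : Set K) := hsub hx
    simpa using congrArg (Subtype.val) (Set.mem_singleton_iff.1 this)
  obtain ⟨V₁, hV₁, hV₁O⟩ : ∃ V ∈ 𝓝 (0 : G), ∀ v ∈ V, ∀ w ∈ V, v - w ∈ O := by
    have hc : ContinuousAt (fun p : G × G => p.1 - p.2) (0, 0) :=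
      (continuous_fst.sub continuous_snd).continuousAt
    have := hc.preimage_mem_nhds (t := O) (by simpa using hO)
    rw [nhds_prod_eq, mem_prod_same_iff] at this
    obtain ⟨V, hV, hVO⟩ := this
    exact ⟨V, hV, fun v hv w hw => hVO (Set.mk_mem_prod hv hw)⟩
  obtain ⟨V, hV, hVV₁, hVc⟩ := local_compact_nhds hV₁
  have h0V : (0 : G) ∈ V := mem_of_mem_nhds hV
  set W' : Set G := ((↑) : K → G) '' W with hW'def
  have hW'fin : W'.Finite := hWfin.image _
  have h0W' : (0 : G) ∈ W' := ⟨0, h0W, rfl⟩
  set U : Set G := W' + V with hUdef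
  have hVU : V ⊆ U := fun v hv => ⟨0, h0W', v, hv, zero_add v⟩
  have hW'U : W' ⊆ U := fun w hw => ⟨w, hw, 0, h0V, add_zero w⟩
  have hUc : IsCompact U := hW'fin.isCompact.add hVc
  have hU0 : U ∈ 𝓝 (0 : G) := mem_of_superset hV hVU
  have hc0 : ν {0} ≠ 0 := by
    have : IsOpen ({0} : Set K) := isOpen_discrete _
    exact (this.measure_pos ν ⟨0, rfl⟩).ne'
  have hct : ν {0} ≠ ⊤ := (isCompact_singleton.measure_lt_top (μ := ν)).ne
  have hμV : μ V ≠ ⊤ := hVc.measure_lt_top.ne
  have hμV0 : μ V ≠ 0 := (Measure.measure_pos_of_mem_nhds μ hV).ne'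
  have key : entropyAt ν ψ W ≤ entropyAt μ φ U := by
    refine limsup_log_le (a := ν {0} * (μ V)⁻¹) ?_ ?_ ?_
    · exact mul_ne_zero hc0 (ENNReal.inv_ne_zero.2 hμV)
    · exact ENNReal.mul_ne_top hct (ENNReal.inv_ne_top.2 hμV0)
    · filter_upwards [eventually_ge_atTop 1] with n hn
      obtain ⟨m, rfl⟩ : ∃ m, n = m + 1 := ⟨n - 1, by omega⟩
      have hcard : (trajectory φ W' (m + 1)).ncard = (trajectory ψ W (m + 1)).ncard := by
        rw [hW'def, ← image_trajectory φ ψ hψ W (m + 1)]
        exact Set.ncard_image_of_injective _ Subtype.val_injective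
      have hsub : trajectory φ W' (m + 1) + V ⊆ trajectory φ U (m + 1) := by
        rw [trajectory_succ, trajectory_succ]
        calc W' + φ '' trajectory φ W' m + V = (W' + V) + φ '' trajectory φ W' m := by
              simp only [add_assoc, add_comm]
          _ ⊆ U + φ '' trajectory φ U m :=
              Set.add_subset_add (subset_of_eq hUdef.symm)
                (Set.image_mono (trajectory_mono φ hW'U m))
      have hK' : ∀ e ∈ trajectory φ W' (m + 1), e ∈ K := by
        intro e he
        rw [hW'def, ← image_trajectory φ ψ hψ W (m + 1)] at he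
        obtain ⟨k, _, rfl⟩ := he
        exact k.2
      have hmeas : μ (trajectory φ W' (m + 1) + V)
          = ((trajectory φ W' (m + 1)).ncard : ENNReal) * μ V := by
        refine measure_add_finite_eq μ hVc.measurableSet (trajectory_finite φ hW'fin _) ?_
        intro e he e' he' hne
        rw [Set.disjoint_left]
        rintro _ ⟨v, hv, rfl⟩ ⟨v', hv', hvv'⟩
        apply hne
        have h1 : e - e' = v' - v := by
          have : e' + v' = e + v := hvv'
          rw [sub_eq_sub_iff_add_eq_add, ← this, add_comm]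
        have h2 : e - e' ∈ O := h1 ▸ hV₁O v' (hVV₁ hv') v (hVV₁ hv)
        exact sub_eq_zero.1 (hOK _ h2 (K.sub_mem (hK' e he) (hK' e' he')))
      calc ν (trajectory ψ W (m + 1))
          = ((trajectory φ W' (m + 1)).ncard : ENNReal) * ν {0} := by
            rw [haar_discrete ν (trajectory_finite ψ hWfin _), hcard]
        _ = ν {0} * (μ V)⁻¹ * (((trajectory φ W' (m + 1)).ncard : ENNReal) * μ V) := by
            rw [mul_comm ((trajectory φ W' (m + 1)).ncard : ENNReal) (μ V), mul_assoc,
              ← mul_assoc (μ V)⁻¹, ENNReal.inv_mul_cancel hμV0 hμV, one_mul, mul_comm]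
        _ ≤ ν {0} * (μ V)⁻¹ * μ (trajectory φ U (m + 1)) := by
            rw [← hmeas]
            gcongr
  exact key.trans (le_iSup (fun U : {U : Set G // IsCompact U ∧ U ∈ 𝓝 (0 : G)} =>
    entropyAt μ φ U) ⟨U, hUc, hU0⟩)

end main

/-- **Dikranjan's question, answered.** For every (Hausdorff) locally compact abelian group `G`
with Haar measure `μ`, every continuous endomorphism `φ`, and every `φ`-invariant uniform
discrete subgroup `K` (discrete, with compact quotient `G ⧸ K`), with Haar measure `ν`,
the algebraic entropy of `φ` equals the algebraic entropy of its restriction to `K`. -/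
theorem result {G : Type*} [AddCommGroup G] [TopologicalSpace G] [IsTopologicalAddGroup G]
    [T2Space G] [LocallyCompactSpace G] [MeasurableSpace G] [BorelSpace G]
    (μ : Measure G) [μ.IsAddHaarMeasure] (φ : G →+ G) (hφ : Continuous φ)
    (K : AddSubgroup G) [DiscreteTopology K] [CompactSpace (G ⧸ K)]
    (hK : ∀ x ∈ K, φ x ∈ K) (ν : Measure K) [ν.IsAddHaarMeasure] :
    algEntropy μ φ = algEntropy ν (fun x : K => (⟨φ x, hK x x.2⟩ : K)) := by
  let ψ : K →+ K := (φ.comp K.subtype).codRestrict K (fun x => hK x x.2)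
  have hψ : ∀ x : K, (ψ x : G) = φ x := fun x => rfl
  change algEntropy μ φ = algEntropy ν ψ
  apply le_antisymm
  · exact iSup_le fun U => entropyAt_le μ φ hφ K ψ hψ ν U.2.1 U.2.2
  · exact iSup_le fun W => le_algEntropy μ φ K ψ hψ ν W.2.1 W.2.2

end Pool.Agent.Results.MP_5d7a45_an.UniformDiscrete
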